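import Pool.Agent.helper32.ATT.NA
import Pool.Agent.helper36.NA.DefsW

/-! Basic facts on `sc`, `pd`, `mu`, `Gnd` (MP_c8d30a, theorem (A), sections 7, 8). -/

set_option autoImplicit false

namespace Pool.Agent.helper32.RW

set_option linter.unusedSectionVars false
set_option linter.unusedSimpArgs false
set_option linter.unusedVariables false

open Equiv Equiv.Perm List NTH NA Pool.Agent.helper32.ATT

variable {Ω : Type} [DecidableEq Ω] {p : Ω → Ω}

lemma sc_pd (s : St Ω) (v : Ω) : sc s (pd s v) = v := by simp [pd]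

lemma pd_sc (s : St Ω) (v : Ω) : pd s (sc s v) = v := by simp [pd]

lemma pd_inj {s : St Ω} {v w : Ω} (h : pd s v = pd s w) : v = w := (sc s).symm.injective h

lemma sc_inj {s : St Ω} {v w : Ω} (h : sc s v = sc s w) : v = w := (sc s).injective h

lemma mu_eq (s : St Ω) (v : Ω) : mu p s v = pd s (p (sc s v)) := rfl

lemma dj {s : St Ω} (hw : WF p s) {v : Ω} (h1 : v ∈ s.1) (h2 : v ∈ s.2) : False :=
  (List.nodup_append.mp hw.nd).2.2 v h1 v h2 rfl

lemma scA {s : St Ω} (hw : WF p s) {v : Ω} (hv : v ∈ s.1) : sc s v ∈ s.1 := by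
  rw [sc_A hw hv]; exact formPerm_apply_mem_of_mem hv

lemma scB {s : St Ω} (hw : WF p s) {v : Ω} (hv : v ∈ s.2) : sc s v ∈ s.2 := by
  rw [sc_B hw hv]; exact formPerm_apply_mem_of_mem hv

lemma pdA {s : St Ω} (hw : WF p s) {v : Ω} (hv : v ∈ s.1) : pd s v ∈ s.1 := mem_pdA hw hv

lemma pdB {s : St Ω} (hw : WF p s) {v : Ω} (hv : v ∈ s.2) : pd s v ∈ s.2 := mem_pdB hw hv

lemma scA' {s : St Ω} (hw : WF p s) {v : Ω} (hv : sc s v ∈ s.1) : v ∈ s.1 := by
  have := pdA hw hv
  rwa [pd_sc] at this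

lemma scB' {s : St Ω} (hw : WF p s) {v : Ω} (hv : sc s v ∈ s.2) : v ∈ s.2 := by
  have := pdB hw hv
  rwa [pd_sc] at this

lemma pdA' {s : St Ω} (hw : WF p s) {v : Ω} (hv : pd s v ∈ s.1) : v ∈ s.1 := by
  have := scA hw hv
  rwa [sc_pd] at this

lemma pdB' {s : St Ω} (hw : WF p s) {v : Ω} (hv : pd s v ∈ s.2) : v ∈ s.2 := by
  have := scB hw hv
  rwa [sc_pd] at this

lemma cl1 {s : St Ω} (hw : WF p s) {v : Ω} (hv : v ∈ s.1) : p v ∈ s.1 ∨ p v ∈ s.2 :=
  List.mem_append.mp (hw.cl v (List.mem_append_left _ hv))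

lemma cl2 {s : St Ω} (hw : WF p s) {v : Ω} (hv : v ∈ s.2) : p v ∈ s.1 ∨ p v ∈ s.2 :=
  List.mem_append.mp (hw.cl v (List.mem_append_right _ hv))

lemma mu_mu' {s : St Ω} (hw : WF p s) (v : Ω) : mu p s (mu p s v) = v := by
  unfold mu
  simp [hw.inv]

lemma mu_inj {s : St Ω} (hw : WF p s) {v w : Ω} (h : mu p s v = mu p s w) : v = w := by
  rw [← mu_mu' hw v, h, mu_mu' hw]

lemma p_inj {s : St Ω} (hw : WF p s) {v w : Ω} (h : p v = p w) : v = w := by
  rw [← hw.inv v, h, hw.inv]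

/-- the successor of the other end of an edge is the partner. -/
lemma sc_mu {s : St Ω} (v : Ω) : sc s (mu p s v) = p (sc s v) := by
  rw [mu_eq, sc_pd]

/-- from a token before a mixed one. -/
lemma muB {s : St Ω} (hw : WF p s) {v : Ω} : mu p s v ∈ s.2 ↔ p (sc s v) ∈ s.2 :=
  ⟨fun h => by have := scB hw h; rwa [sc_mu] at this, fun h => by rw [mu_eq]; exact pdB hw h⟩

lemma muA {s : St Ω} (hw : WF p s) {v : Ω} : mu p s v ∈ s.1 ↔ p (sc s v) ∈ s.1 :=
  ⟨fun h => by have := scA hw h; rwa [sc_mu] at this, fun h => by rw [mu_eq]; exact pdA hw h⟩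

lemma Gnd.ofMA {s : St Ω} (hw : WF p s) {t g : Ω} (ht : MA p s t) (h : Gnd p s t g) : g = t := by
  cases h with
  | selfA _ _ => rfl
  | selfB _ _ => rfl
  | red _ _ h' _ => exact absurd h'.2 (fun h1 => dj hw h1 ht.2)
  | blu _ _ h' _ => exact absurd h'.1 (fun h1 => dj hw ht.1 h1)

lemma Gnd.ofMB {s : St Ω} (hw : WF p s) {t g : Ω} (ht : MB p s t) (h : Gnd p s t g) : g = t := by
  cases h with
  | selfA _ _ => rfl
  | selfB _ _ => rfl
  | red _ _ h' _ => exact absurd h'.1 (fun h1 => dj hw h1 ht.1)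
  | blu _ _ h' _ => exact absurd h'.2 (fun h1 => dj hw ht.2 h1)

lemma Gnd.ofRed {s : St Ω} (hw : WF p s) {t g : Ω} (ht : Red p s t) (h : Gnd p s t g) :
    Gnd p s (pd s t) g := by
  cases h with
  | selfA _ h' => exact absurd ht.2 (fun h1 => dj hw h1 h'.2)
  | selfB _ h' => exact absurd ht.1 (fun h1 => dj hw h1 h'.1)
  | red _ _ _ h' => exact h'
  | blu _ _ h' _ => exact absurd ht.1 (fun h1 => dj hw h1 h'.1)

lemma Gnd.ofBlu {s : St Ω} (hw : WF p s) {t g : Ω} (ht : Blu p s t) (h : Gnd p s t g) :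
    Gnd p s (pd s t) g := by
  cases h with
  | selfA _ h' => exact absurd ht.1 (fun h1 => dj hw h'.1 h1)
  | selfB _ h' => exact absurd ht.2 (fun h1 => dj hw h'.2 h1)
  | red _ _ h' _ => exact absurd ht.1 (fun h1 => dj hw h'.1 h1)
  | blu _ _ _ h' => exact h'

lemma Gnd.next {s : St Ω} {t g : Ω} (h : Gnd p s t g) :
    t = g ∨ Red p s (sc s g) ∨ Blu p s (sc s g) := by
  induction h with
  | selfA _ _ => exact Or.inl rfl
  | selfB _ _ => exact Or.inl rfl
  | red t g h _ ih =>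
      rcases ih with ih | ih
      · right; left
        rw [← ih, sc_pd]
        exact h
      · exact Or.inr ih
  | blu t g h _ ih =>
      rcases ih with ih | ih
      · right; right
        rw [← ih, sc_pd]
        exact h
      · exact Or.inr ih

lemma Gnd.uniq {s : St Ω} (hw : WF p s) {t g g' : Ω} (h : Gnd p s t g) (h' : Gnd p s t g') :
    g = g' := by
  induction h with
  | selfA _ h => exact (Gnd.ofMA hw h h').symm
  | selfB _ h => exact (Gnd.ofMB hw h h').symm
  | red t g h _ ih => exact ih (Gnd.ofRed hw h h')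
  | blu t g h _ ih => exact ih (Gnd.ofBlu hw h h')

/-- grounds in `B` do not depend on `A`. -/
lemma Gnd.congrB {s t : St Ω} (hws : WF p s) (hwt : WF p t) (h2 : t.2 = s.2)
    (h1 : ∀ v, v ∈ t.1 ↔ v ∈ s.1) {v g : Ω} (h : Gnd p t v g) (hv : v ∈ t.2) :
    Gnd p s v g := by
  have hpd : ∀ v ∈ t.2, pd t v = pd s v := by
    intro v hv
    have m := pdB hwt hv
    have e1 : sc s (pd t v) = v := by
      have := sc_pd t v
      rw [sc_B hwt m] at this
      rw [sc_B hws (by rw [← h2]; exact m), ← h2]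
      exact this
    rw [← e1, pd_sc, e1]
  induction h with
  | selfA t h => exact absurd hv (fun h3 => dj hwt h.1 h3)
  | selfB v h => exact .selfB v ⟨by rw [← h2]; exact h.1, (h1 _).mp h.2⟩
  | red _ _ h _ _ => exact absurd hv (fun h3 => dj hwt h.1 h3)
  | blu v g h _ ih =>
      have m := pdB hwt hv
      refine .blu v g ⟨by rw [← h2]; exact h.1, by rw [← h2]; exact h.2⟩ ?_
      rw [← hpd v hv]
      exact ih m

/-- a blue token directly before `p c` makes `c` good. -/
lemma good_of {s : St Ω} (hw : WF p s) {y c : Ω} (hy : Blu p s y) (hl : s.2.getLast? ≠ some y)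
    (h : sc s y = p c) : Good p s c := by
  obtain ⟨D, L, hB⟩ := List.append_of_mem hy.1
  cases L with
  | nil =>
      exfalso
      apply hl
      rw [hB]
      simp
  | cons r L =>
      rw [sc_B hw hy.1, hB] at h
      have hn : (D ++ y :: r :: L).Nodup := by
        rw [← hB]
        exact (List.nodup_append.mp hw.nd).2.1
      rw [Pool.Agent.helper36.WE.formPerm_adjacent hn] at h
      subst h
      exact ⟨y, D ++ [y], L, by rw [hB]; simp, by simp, hy.2⟩

end Pool.Agent.helper32.RW
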