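import Pool.Agent.helper32.RW.Step

/-! Distances of the red walk (MP_c8d30a, theorem (A), section 8). -/

set_option autoImplicit false

namespace Pool.Agent.helper32.RW

set_option linter.unusedSectionVars false
set_option linter.unusedSimpArgs false
set_option linter.unusedVariables false

open Equiv Equiv.Perm List NTH NA Pool.Agent.helper32.ATT

universe u
variable {Ω : Type u} {p m : Ω → Ω} {A : Ω → Prop} {f : Ω}

lemma dl_start {n : ℕ} {t e : Ω} (h : Dl p m A f n t e) (hn : n ≠ 0) : ¬ A (m t) := by
  cases h with
  | zero _ _ _ => exact absurd rfl hn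
  | one _ _ h1 _ => exact h1
  | step _ _ _ _ h1 _ _ => exact h1

lemma dl_evenEnd {n : ℕ} {t e : Ω} (h : Dl p m A f n t e) : Even n → A t →
    A (m e) ∧ A e ∧ (n ≠ 0 → ∃ t', A t' ∧ e = p (m t') ∧ ¬ A (m t')) := by
  induction h with
  | zero t h h1 => exact fun _ hA => ⟨h1, hA, fun h => absurd rfl h⟩
  | one t h h1 h2 => exact fun h => absurd h (by decide)
  | step n t e h h1 h2 h3 ih =>
      intro hn hA
      have hn' : Even n := by
        rcases hn with ⟨k, hk⟩
        exact ⟨k - 1, by omega⟩
      obtain ⟨k1, k2, k3⟩ := ih hn' h2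
      refine ⟨k1, k2, fun _ => ?_⟩
      by_cases h0 : n = 0
      · subst h0
        cases h3 with
        | zero _ _ _ => exact ⟨t, hA, rfl, h1⟩
      · exact k3 h0

lemma dl_oddEnd (hmm : ∀ v, m (m v) = v) {n : ℕ} {t e : Ω} (h : Dl p m A f n t e) : Odd n →
    A t → A (m e) ∧ ¬ A e ∧ ¬ A (p e) ∧ e ≠ f ∧ (n = 1 → m e = t) ∧
      (n ≠ 1 → ∃ t', A t' ∧ m e = p (m t') ∧ ¬ A (m t')) := by
  induction h with
  | zero t h h1 => exact fun h => absurd h (by decide)
  | one t h h1 h2 =>
      exact fun _ hA => ⟨by rw [hmm]; exact hA, h1, h2, h, fun _ => hmm t, fun h => absurd rfl h⟩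
  | step n t e h h1 h2 h3 ih =>
      intro hn hA
      have hn' : Odd n := by
        rcases hn with ⟨k, hk⟩
        exact ⟨k - 1, by omega⟩
      obtain ⟨k1, k2, k3, k4, k5, k6⟩ := ih hn' h2
      refine ⟨k1, k2, k3, k4, fun h => by omega, fun _ => ?_⟩
      by_cases h0 : n = 1
      · exact ⟨t, hA, k5 h0, h1⟩
      · exact k6 h0

/-- after flipping the end of an even path. -/
lemma dl_evenStep (hinv : ∀ v, p (p v) = v) {A' : Ω → Prop} {e y : Ω}
    (hA' : ∀ v, A' v ↔ (A v ∧ v ≠ e) ∨ v = y) (hy : ¬ A y) (hpy : ¬ A (p y)) (hey : e ≠ y)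
    {n : ℕ} {t : Ω} (h : Dl p m A f n t e) : Even n → A t → n ≠ 0 →
    Dl p m A' f (n - 1) t (p e) := by
  induction h with
  | zero t h h1 => exact fun _ _ h => absurd rfl h
  | one t h h1 h2 => exact fun h => absurd h (by decide)
  | step n t e h h1 h2 h3 ih =>
      intro hn hA _
      have hn' : Even n := by
        rcases hn with ⟨k, hk⟩
        exact ⟨k - 1, by omega⟩
      have hmy : m t ≠ y := by
        intro h'
        rw [h'] at h2
        exact hpy h2
      have g1 : ¬ A' (m t) := by
        rw [hA']
        rintro (h' | h')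
        · exact h1 h'.1
        · exact hmy h'
      by_cases h0 : n = 0
      · subst h0
        cases h3 with
        | zero _ _ _ =>
            have g2 : ¬ A' (p (m t)) := by
              rw [hA']
              rintro (h' | h')
              · exact h'.2 rfl
              · exact hey h'
            have := Dl.one (p := p) (f := f) t h g1 g2
            rw [hinv]
            exact this
      · have k1 := dl_evenEnd h3 hn' h2
        have g2 : A' (p (m t)) := by
          rw [hA']
          left
          refine ⟨h2, ?_⟩
          intro h'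
          have := dl_start h3 h0
          rw [h'] at this
          exact this k1.1
        have k2 := ih hA' hey hn' h2 h0
        have := Dl.step (n - 1) t (p e) h g1 g2 k2
        have e1 : n - 1 + 2 = n + 2 - 1 := by omega
        rw [e1] at this
        exact this

/-- after flipping the end of an odd path. -/
lemma dl_oddStep (hmm : ∀ v, m (m v) = v) {A' : Ω → Prop} {u w : Ω}
    (hA' : ∀ v, A' v ↔ (A v ∧ v ≠ u) ∨ v = w) (hu : A (m u)) (hpw : ¬ A (p w))
    {n : ℕ} {t : Ω} (h : Dl p m A f n t w) : Odd n → Dl p m A' f (n - 1) t (m w) := by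
  induction h with
  | zero t h h1 => exact fun h => absurd h (by decide)
  | one t h h1 h2 =>
      intro _
      have g1 : A' (m t) := (hA' _).mpr (Or.inr rfl)
      have := Dl.zero (p := p) (f := f) t h g1
      rw [hmm]
      exact this
  | step n t e h h1 h2 h3 ih =>
      intro hn
      have hn' : Odd n := by
        rcases hn with ⟨k, hk⟩
        exact ⟨k - 1, by omega⟩
      have h0 : n ≠ 0 := by
        rcases hn' with ⟨k, hk⟩
        omega
      have g1 : ¬ A' (m t) := by
        rw [hA']
        rintro (h' | h')
        · exact h1 h'.1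
        · rw [h'] at h2
          exact hpw h2
      have g2 : A' (p (m t)) := by
        rw [hA']
        left
        refine ⟨h2, ?_⟩
        intro h'
        have := dl_start h3 h0
        rw [h'] at this
        exact this hu
      have k2 := ih hA' hpw hn'
      have := Dl.step (n - 1) t (m e) h g1 g2 k2
      have e1 : n - 1 + 2 = n + 2 - 1 := by omega
      rw [e1] at this
      exact this

end Pool.Agent.helper32.RW
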