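import Pool.Agent.helper32.RW.Dist

/-! The last step of the red walk (MP_c8d30a, theorem (A), section 8). -/

set_option autoImplicit false

namespace Pool.Agent.helper32.RW

set_option linter.unusedSectionVars false
set_option linter.unusedSimpArgs false
set_option linter.unusedVariables false

open Equiv Equiv.Perm List NTH NA Pool.Agent.helper32.ATT

variable {Ω : Type} [DecidableEq Ω] {p : Ω → Ω}

/-- sides of the red tokens after a flip. -/
lemma red_flip {s t : St Ω} (hws : WF p s) {R : Finset Ω} (hR : ∀ v, v ∈ R ↔ Red p s v)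
    {u w : Ω} (hu : MA p s u) (hwB : Blu p s w)
    (mem1 : ∀ v, v ∈ t.1 ↔ (v ∈ s.1 ∧ v ≠ u) ∨ v = w) : ∀ v, v ∈ R ↔ Red p t v := by
  intro v
  rw [hR]
  unfold Red
  rw [mem1, mem1]
  constructor
  · rintro ⟨h1, h2⟩
    refine ⟨Or.inl ⟨h1, ?_⟩, Or.inl ⟨h2, ?_⟩⟩
    · rintro rfl
      exact dj hws h2 hu.2
    · intro h
      have : v = p u := by rw [← h, hws.inv]
      rw [this] at h1
      exact dj hws h1 hu.2
  · rintro ⟨h1 | h1, h2 | h2⟩
    · exact ⟨h1.1, h2.1⟩
    · exfalso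
      have : v = p w := by rw [← h2, hws.inv]
      rw [this] at h1
      exact dj hws h1.1 hwB.2
    · exfalso
      rw [h1] at h2
      exact dj hws h2.1 hwB.2
    · exfalso
      rw [h1] at h2
      exact hws.ne w h2

/-- the blue tokens after a flip. -/
lemma blu_flip {s t : St Ω} (hws : WF p s) {y : Ω} (only : ∀ v, Blu p s v → v = y ∨ v = p y)
    {u w : Ω} (hwB : Blu p s w)
    (mem2 : ∀ v, v ∈ t.2 ↔ (v ∈ s.2 ∧ v ≠ w) ∨ v = u) : ∀ v, Blu p t v → v = u ∨ v = p u := by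
  intro v hv
  unfold Blu at hv
  rw [mem2, mem2] at hv
  obtain ⟨h1 | h1, h2 | h2⟩ := hv
  · exfalso
    have hb : Blu p s v := ⟨h1.1, h2.1⟩
    have e : w = y ∨ w = p y := only w hwB
    rcases only v hb with h3 | h3 <;> rcases e with h4 | h4
    · exact h1.2 (h3.trans h4.symm)
    · exact h2.2 (by rw [h3, h4])
    · exact h2.2 (by rw [h3, hws.inv, h4])
    · exact h1.2 (h3.trans h4.symm)
  · right
    rw [← h2, hws.inv]
  · exact Or.inl h1
  · exact Or.inl h1

lemma blu_new {s t : St Ω} (hws : WF p s) {u w : Ω} (hu : MA p s u) (hwB : Blu p s w)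
    (mem2 : ∀ v, v ∈ t.2 ↔ (v ∈ s.2 ∧ v ≠ w) ∨ v = u) : Blu p t u := by
  refine ⟨(mem2 _).mpr (Or.inr rfl), (mem2 _).mpr (Or.inl ⟨hu.2, ?_⟩)⟩
  intro h
  have : u = p w := by rw [← h, hws.inv]
  rw [this] at hu
  exact dj hws hu.1 hwB.2

lemma ma_flip {s t : St Ω} (hws : WF p s) {u w : Ω} (hwB : Blu p s w)
    (mem1 : ∀ v, v ∈ t.1 ↔ (v ∈ s.1 ∧ v ≠ u) ∨ v = w)
    (mem2 : ∀ v, v ∈ t.2 ↔ (v ∈ s.2 ∧ v ≠ w) ∨ v = u) {v : Ω} (hv : MA p s v) (hvu : v ≠ u) :
    MA p t v := by
  refine ⟨(mem1 _).mpr (Or.inl ⟨hv.1, hvu⟩), (mem2 _).mpr (Or.inl ⟨hv.2, ?_⟩)⟩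
  intro h
  have : v = p w := by rw [← h, hws.inv]
  rw [this] at hv
  exact dj hws hv.1 hwB.2

lemma mb_flip {s t : St Ω} (hws : WF p s) {u w : Ω}
    (mem1 : ∀ v, v ∈ t.1 ↔ (v ∈ s.1 ∧ v ≠ u) ∨ v = w)
    (mem2 : ∀ v, v ∈ t.2 ↔ (v ∈ s.2 ∧ v ≠ w) ∨ v = u) {v : Ω} (hv : MB p s v) (hvw : v ≠ w)
    (hvu : v ≠ p u) : MB p t v := by
  refine ⟨(mem2 _).mpr (Or.inl ⟨hv.1, hvw⟩), (mem1 _).mpr (Or.inl ⟨hv.2, ?_⟩)⟩
  intro h
  exact hvu (by rw [← h, hws.inv])

/-- the new mixed letter. -/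
lemma ma_new {s t : St Ω} (hws : WF p s) {u w : Ω} (hwB : Blu p s w)
    (mem1 : ∀ v, v ∈ t.1 ↔ (v ∈ s.1 ∧ v ≠ u) ∨ v = w)
    (mem2 : ∀ v, v ∈ t.2 ↔ (v ∈ s.2 ∧ v ≠ w) ∨ v = u) : MA p t w :=
  ⟨(mem1 _).mpr (Or.inr rfl), (mem2 _).mpr (Or.inl ⟨hwB.2, hws.ne w⟩)⟩

lemma not_fix {s : St Ω} (hws : WF p s) {v w : Ω} (hv : v ∈ s.2) (hw : w ∈ s.2) (hvw : v ≠ w) :
    sc s v ≠ v := by
  rw [sc_B hws hv]
  intro h
  have hn : s.2.Nodup := (List.nodup_append.mp hws.nd).2.1
  rw [List.formPerm_apply_mem_eq_self_iff _ hn _ hv] at h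
  have h1 : ({v, w} : Finset Ω) ⊆ s.2.toFinset := by
    intro a ha
    rw [List.mem_toFinset]
    simp only [Finset.mem_insert, Finset.mem_singleton] at ha
    rcases ha with rfl | rfl
    · exact hv
    · exact hw
  have h2 := Finset.card_le_card h1
  rw [Finset.card_pair hvw, List.toFinset_card_of_nodup hn] at h2
  omega

/-- the choice of a red letter. -/
lemma choose_z {s : St Ω} (hws : WF p s) {R : Finset Ω} (hc : 10 ≤ R.card) (x : Ω)
    (E : Finset Ω) (hE : E.card ≤ 5) :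
    ∃ z ∈ R, z ≠ x ∧ z ≠ p x ∧ p (pd s z) ∉ E := by
  by_contra h
  push Not at h
  have h1 : R ⊆ insert x (insert (p x) (R.filter (fun z => p (pd s z) ∈ E))) := by
    intro z hz
    simp only [Finset.mem_insert, Finset.mem_filter]
    by_cases e1 : z = x
    · exact Or.inl e1
    by_cases e2 : z = p x
    · exact Or.inr (Or.inl e2)
    exact Or.inr (Or.inr ⟨hz, h z hz e1 e2⟩)
  have h2 : (R.filter (fun z => p (pd s z) ∈ E)).card ≤ E.card := by
    apply Finset.card_le_card_of_injOn (fun z => p (pd s z))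
    · intro z hz
      exact (Finset.mem_filter.mp hz).2
    · intro a _ b _ hab
      exact pd_inj (p_inj hws hab)
  have h3 := Finset.card_le_card h1
  have h4 := Finset.card_insert_le x (insert (p x) (R.filter (fun z => p (pd s z) ∈ E)))
  have h5 := Finset.card_insert_le (p x) (R.filter (fun z => p (pd s z) ∈ E))
  omega

/-- **the last step**. -/
theorem last_step (hU : UR_stmt p) (hH : H_stmt p) (hK : K_stmt p) {s : St Ω} {y : Ω}
    {R : Finset Ω} (hI : RI p s y R) (hc : 44 ≤ R.card) {x f : Ω} (hx : x ∈ R)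
    (hf : s.2.getLast? = some f) (hwB : Blu p s (mu p s x)) (hwf : mu p s x ≠ f) :
    Drop p 11 s := by
  classical
  have hws := hI.wf
  set w := mu p s x with hwdef
  have hmw : mu p s w = x := mu_mu' hws x
  have hxr := (hI.red x).mp hx
  have hpx : p x ∈ R := RI.p_mem hI hx
  obtain ⟨g0, hg0⟩ : ∃ g0, ∀ g, Gnd p s w g → g = g0 := by
    by_cases h : ∃ g, Gnd p s w g
    · obtain ⟨g, hg⟩ := h
      exact ⟨g, fun g' hg' => Gnd.uniq hws hg' hg⟩
    · exact ⟨w, fun g hg => absurd ⟨g, hg⟩ h⟩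
  obtain ⟨z, hz, hzx, hzpx, hzE⟩ := choose_z hws (R := R) (by omega) x
    ({g0, pd s w, pd s (p w), f, mu p s (p x)} : Finset Ω) (Finset.card_le_five)
  simp only [Finset.mem_insert, Finset.mem_singleton, not_or] at hzE
  obtain ⟨E1, E2, E3, E4, E5⟩ := hzE
  have hzr := (hI.red z).mp hz
  have hpz : p z ∈ R := RI.p_mem hI hz
  obtain ⟨t, b0, hwt, hmu, hlast, mem1, mem2, hmx, c1, c2, c3, c4, c5, c6, c7⟩ :=
    stepG hU hH hI (by omega) hz hx hwB (by rw [hf]; simpa using Ne.symm hwf)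
      (by rw [hmw]; exact hxr.1) (Or.inr ⟨hmw, hzx⟩) (fun h => E1 (hg0 _ h))
  set u := pd s z with hu
  have huMA : MA p s u := hI.iso z hz
  have hscu : sc s u = z := by rw [hu, sc_pd]
  rw [hmw] at c1
  have hpxz : p x ≠ z := Ne.symm hzpx
  have hpxpz : p x ≠ p z := fun h => hzx (p_inj hws h).symm
  have c8 := c7 (p x) (Or.inr rfl) hpxz hpxpz
  set c := pd s (p x) with hcdef
  have hcMA : MA p s c := hI.iso _ hpx
  have hcu : c ≠ u := fun h => hpxz (pd_inj h)
  have hcMAt : MA p t c := ma_flip hws hwB mem1 mem2 hcMA hcu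
  have hRt := red_flip hws hI.red huMA hwB mem1
  have hut : Blu p t u := blu_new hws huMA hwB mem2
  have hput : Blu p t (p u) := ⟨hut.2, by rw [hws.inv]; exact hut.1⟩
  have hwMAt : MA p t w := ma_new hws hwB mem1 mem2
  have hscw : sc s w = p (sc s x) := by rw [hwdef, sc_mu]
  have hscwA : p (sc s w) ∈ s.1 := by
    rw [hscw, hws.inv]; exact scA hws hxr.1
  -- the predecessors of the new blue tokens are mixed
  have hpdw : MB p t (pd s w) := by
    by_cases h1 : pd s w = p w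
    · rw [h1]
      exact ⟨hwMAt.2, by rw [hws.inv]; exact hwMAt.1⟩
    · have h2 : pd s w ∈ s.2 := pdB hws hwB.1
      have h3 : pd s w ≠ w := by
        intro h
        have h4 : sc s w = w := by
          have := sc_pd s w
          rwa [h] at this
        rw [h4] at hscwA
        exact dj hws hscwA hwB.2
      have h5 : MB p s (pd s w) := by
        refine ⟨h2, ?_⟩
        rcases cl2 hws h2 with h6 | h6
        · exact h6
        · exfalso
          have e := hI.only w hwB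
          rcases hI.only _ ⟨h2, h6⟩ with h7 | h7 <;> rcases e with h8 | h8
          · exact h3 (h7.trans h8.symm)
          · exact h1 (by rw [h7, h8, hws.inv])
          · exact h1 (by rw [h7, h8])
          · exact h3 (h7.trans h8.symm)
      exact mb_flip hws mem1 mem2 h5 h3 (Ne.symm E2)
  have hpdpw : MB p t (pd s (p w)) := by
    have h2 : pd s (p w) ∈ s.2 := pdB hws hwB.2
    have h1 : pd s (p w) ≠ w := by
      intro h
      have h4 : sc s w = p w := by
        have := sc_pd s (p w)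
        rwa [h] at this
      rw [h4, hws.inv] at hscwA
      exact dj hws hscwA hwB.1
    have h3 : pd s (p w) ≠ p w := by
      intro h
      have h4 : sc s (p w) = p w := by
        have := sc_pd s (p w)
        rwa [h] at this
      exact not_fix hws hwB.2 hwB.1 (hws.ne w) h4
    have h5 : MB p s (pd s (p w)) := by
      refine ⟨h2, ?_⟩
      rcases cl2 hws h2 with h6 | h6
      · exact h6
      · exfalso
        have e := hI.only w hwB
        rcases hI.only _ ⟨h2, h6⟩ with h7 | h7 <;> rcases e with h8 | h8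
        · exact h1 (h7.trans h8.symm)
        · exact h3 (by rw [h7, h8, hws.inv])
        · exact h3 (by rw [h7, h8])
        · exact h1 (h7.trans h8.symm)
    exact mb_flip hws mem1 mem2 h5 h1 (Ne.symm E3)
  have hlu : t.2.getLast? ≠ some u := by
    rw [hlast]
    intro h
    have : u ∈ s.2 := List.mem_of_getLast? h
    exact dj hws huMA.1 this
  have hlpu : t.2.getLast? ≠ some (p u) := by
    rw [hlast, hf]
    intro h
    exact E4 (Option.some.inj h).symm
  have hxrt : Red p t x := (hRt x).mp hx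
  have hzrt : Red p t z := (hRt z).mp hz
  by_cases hgood : Good p t c
  · exact Drop.mono (drop_trans b0 hmx (hK t x z c hwt hxrt hzrt hzx hzpx c1 hcMAt c8 hgood))
      (by omega)
  -- make the core not run-reversed
  obtain ⟨t1, d1, d2, d3, d4, d5, d6⟩ := use_UR hU hwt hRt (by omega) x z
    ⟨w, hwMAt, good_of hwt hut hlu (by rw [← c5, sc_pd])⟩ (by
    intro v hv e1 e2 e3 e4
    refine ⟨c6 v hv e3 e4, ?_⟩
    have hvr := (hRt v).mp hv
    have h1 := scA hwt hvr.1
    rcases cl1 hwt h1 with h2 | h2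
    · exfalso
      have h3 : sc t v ∈ R := (hRt _).mpr ⟨h1, h2⟩
      by_cases h4 : sc t v = z
      · have := pd_sc t v
        rw [h4, c1] at this
        exact e1 this.symm
      by_cases h5 : sc t v = p z
      · have := pd_sc t v
        rw [h5, c2] at this
        rw [← this] at hvr
        exact dj hwt hvr.2 hwMAt.2
      · have := c6 _ h3 h4 h5
        rw [pd_sc] at this
        exact dj hwt hvr.2 this.2
    · exact ⟨h1, h2⟩)
  have hwt1 : WF p t1 := d1.wf hwt
  have d2' : t1.2.Perm t.2 := by rw [d2]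
  have hmu1 : mu p t1 = mu p s := by rw [d1.mu hwt.inv hwt.nd, hmu]
  have hmx1 : mx p t1 = mx p s := by rw [mx_perm d3 d2', hmx]
  have hxz1 : pd t1 z = x := by rw [d5 z hzrt (by tauto), c1]
  have hpx1 : pd t1 (p x) = c := by
    rw [d5 (p x) ⟨hxrt.2, by rw [hws.inv]; exact hxrt.1⟩ (by tauto), c8]
  have hx1 : pd t1 x = pd t x := d5 x hxrt (by tauto)
  have hpz1 : pd t1 (p z) = w := by
    rw [d5 (p z) ⟨hzrt.2, by rw [hws.inv]; exact hzrt.1⟩ (by tauto), c2]
  have hcMA1 : MA p t1 c := (ma_iff d3 d2' _).mpr hcMAt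
  have hR1 : ∀ v, v ∈ R ↔ Red p t1 v := fun v => by rw [red_iff d3]; exact hRt v
  have hut1 : Blu p t1 u := ⟨by rw [d2]; exact hut.1, by rw [d2]; exact hut.2⟩
  have hput1 : Blu p t1 (p u) := ⟨hut1.2, by rw [hws.inv]; exact hut1.1⟩
  have hpdu1 : pd t1 u = pd s (p w) := by rw [pd_congrB hwt hwt1 d2 hut.1, c4]
  have hpdpu1 : pd t1 (p u) = pd s w := by rw [pd_congrB hwt hwt1 d2 hput.1, c3]
  have hMBu : MB p t1 (pd s (p w)) :=
    ⟨by rw [d2]; exact hpdpw.1, d3.mem_iff.mpr hpdpw.2⟩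
  have hMBpu : MB p t1 (pd s w) := ⟨by rw [d2]; exact hpdw.1, d3.mem_iff.mpr hpdw.2⟩
  -- the predecessors of red tokens except `z` are mixed
  have hiso1 : ∀ v ∈ R, v ≠ z → MA p t1 (pd t1 v) := by
    intro v hv hvz
    by_cases e4 : v = p z
    · rw [e4, hpz1]
      exact (ma_iff d3 d2' _).mpr hwMAt
    by_cases e1 : v = x
    · rw [e1, hx1]
      have := c6 x hx (Ne.symm hzx) (fun h => hzpx (by rw [h, hws.inv]))
      exact (ma_iff d3 d2' _).mpr this
    by_cases e2 : v = p x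
    · rw [e2, hpx1]; exact hcMA1
    · exact d6 v hv e1 e2 hvz e4
  have finish : ∀ t2, Pa p 0 t1 t2 → t2.1.Perm t1.1 → t2.2.Perm t1.2 → WF p t2 →
      (∀ v, Red p t1 v ∨ Blu p t1 v → pd t2 v = pd t1 v) → Good p t2 c → Drop p 11 s := by
    intro t2 f1 f2 f3 hwt2 f4 f5
    have g1 : Drop p 2 t2 := hK t2 x z c hwt2 ((red_iff f2 _).mpr ((hR1 x).mp hx))
      ((red_iff f2 _).mpr ((hR1 z).mp hz)) hzx hzpx
      (by rw [f4 z (Or.inl ((hR1 z).mp hz)), hxz1]) ((ma_iff f2 f3 _).mpr hcMA1)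
      (by rw [f4 (p x) (Or.inl ((hR1 _).mp hpx)), hpx1]) f5
    have g2 := drop_trans f1 (mx_perm f2 f3) g1
    have g3 := drop_trans d1 (mx_perm d3 d2') g2
    exact Drop.mono (drop_trans b0 hmx g3) (by omega)
  by_cases hcase : p c = pd s (p w)
  · -- attach to the edge of `p u`
    have hq1 : mu p s (p u) ∈ s.1 := by
      rw [muA hws]
      have h1 : sc s (p u) ∈ s.2 := scB hws huMA.2
      rcases cl2 hws h1 with h2 | h2
      · exact h2
      · exfalso
        have e := hI.only w hwB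
        have h3 : sc s (p u) = w ∨ sc s (p u) = p w := by
          rcases hI.only _ ⟨h1, h2⟩ with h7 | h7 <;> rcases e with h8 | h8
          · exact Or.inl (h7.trans h8.symm)
          · exact Or.inr (by rw [h7, h8, hws.inv])
          · exact Or.inr (by rw [h7, h8])
          · exact Or.inl (h7.trans h8.symm)
        rcases h3 with h3 | h3
        · apply E2
          rw [← h3, pd_sc]
        · apply E3
          rw [← h3, pd_sc]
    have hmuu : mu p s u ∈ s.1 := by
      rw [muA hws, hscu]; exact hzr.2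
    have hq2 : mu p s (p u) ≠ u := by
      intro h
      have h1 := mu_mu' hws (p u)
      rw [h] at h1
      rw [h1] at hmuu
      exact dj hws hmuu huMA.2
    have hq3 : mu p s (p u) ∈ t1.1 := d3.mem_iff.mpr ((mem1 _).mpr (Or.inl ⟨hq1, hq2⟩))
    have hmuc : mu p s c ∈ s.1 := by
      rw [muA hws, hcdef, sc_pd, hws.inv]; exact hxr.1
    have n1 : ¬ Gnd p t1 (mu p s (p u)) c := by
      intro h
      rcases cl1 hwt1 hq3 with h1 | h1
      · have hq4 : mu p s (p u) ∈ R := (hR1 _).mpr ⟨hq3, h1⟩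
        have h2 := Gnd.ofRed hwt1 ⟨hq3, h1⟩ h
        by_cases h3 : mu p s (p u) = z
        · rw [h3, hxz1] at h2
          have h4 := Gnd.ofRed hwt1 ((hR1 x).mp hx) h2
          have h5 := Gnd.ofMA hwt1 (hiso1 x hx (Ne.symm hzx)) h4
          rw [← hpx1] at h5
          exact hws.ne x (pd_inj h5)
        · have h5 := Gnd.ofMA hwt1 (hiso1 _ hq4 h3) h2
          rw [← hpx1] at h5
          have h6 := pd_inj h5
          apply E5
          rw [h6, mu_mu' hws]
      · have h5 := Gnd.ofMA hwt1 ⟨hq3, h1⟩ h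
        have h6 : mu p s c = p u := by rw [h5, mu_mu' hws]
        rw [h6] at hmuc
        exact dj hws hmuc huMA.2
    have n2 : ¬ Gnd p t1 (p u) (p c) := by
      intro h
      have h1 := Gnd.ofBlu hwt1 hput1 h
      rw [hpdpu1] at h1
      have h2 := Gnd.ofMB hwt1 hMBpu h1
      rw [hcase] at h2
      exact hws.ne w (pd_inj h2)
    obtain ⟨t2, f1, f2, f3, f4, f5, f6, f7, f8⟩ := attach_na hwt1 d4 hq3 hput1.1
      (by rw [hmu1]) hcMA1 n1 n2
    refine finish t2 f1 f2 f3 f7 f8 (good_of f7 (y := p u) ⟨f3.mem_iff.mpr hput1.1, f3.mem_iff.mpr hput1.2⟩ ?_ f6)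
    rw [f4, d2]; exact hlpu
  · -- attach to the edge of `u`
    have hmuu : mu p s u = pd s (p z) := by rw [mu_eq, hscu]
    have hm1 : MA p s (mu p s u) := by rw [hmuu]; exact hI.iso _ hpz
    have hm2 : mu p s u ≠ u := by
      rw [hmuu, hu]
      intro h
      exact hws.ne z (pd_inj h)
    have hm3 : MA p t1 (mu p s u) := (ma_iff d3 d2' _).mpr (ma_flip hws hwB mem1 mem2 hm1 hm2)
    have n1 : ¬ Gnd p t1 (mu p s u) c := by
      intro h
      have h1 := Gnd.ofMA hwt1 hm3 h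
      rw [hmuu, hcdef] at h1
      exact hpxpz (pd_inj h1)
    have n2 : ¬ Gnd p t1 u (p c) := by
      intro h
      have h1 := Gnd.ofBlu hwt1 hut1 h
      rw [hpdu1] at h1
      exact hcase (Gnd.ofMB hwt1 hMBu h1)
    obtain ⟨t2, f1, f2, f3, f4, f5, f6, f7, f8⟩ := attach_na hwt1 d4 hm3.1 hut1.1
      (by rw [hmu1]) hcMA1 n1 n2
    refine finish t2 f1 f2 f3 f7 f8 (good_of f7 (y := u) ⟨f3.mem_iff.mpr hut1.1, f3.mem_iff.mpr hut1.2⟩ ?_ f6)
    rw [f4, d2]; exact hlu

end Pool.Agent.helper32.RW
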