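import Pool.Agent.helper32.RW.Last
import Pool.Agent.helper32.NA.ATT

/-! The red walk (MP_c8d30a, theorem (A), section 8). -/

set_option autoImplicit false

namespace Pool.Agent.helper32.RW

set_option linter.unusedSectionVars false
set_option linter.unusedSimpArgs false
set_option linter.unusedVariables false

open Equiv Equiv.Perm List NTH NA Pool.Agent.helper32.ATT

variable {Ω : Type} [DecidableEq Ω] {p : Ω → Ω}

/-- the invariant after a step towards a mixed token. -/
lemma RI_step (hU : UR_stmt p) (hH : H_stmt p) {s : St Ω} {y : Ω}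
    {R : Finset Ω} (hI : RI p s y R) (hc : 44 ≤ R.card) {z w : Ω} (hz : z ∈ R)
    (hwB : Blu p s w) (hwl : s.2.getLast? ≠ some w) (hq : MA p s (mu p s w))
    (hne : mu p s w ≠ pd s z) (hg : ¬ Gnd p s w (p (pd s z))) :
    ∃ t, Pa p 5 s t ∧ RI p t (pd s z) R ∧ mu p t = mu p s ∧ t.2.getLast? = s.2.getLast? ∧
      (∀ v, v ∈ t.1 ↔ (v ∈ s.1 ∧ v ≠ pd s z) ∨ v = w) ∧ mx p t = mx p s := by
  have hws := hI.wf
  have huMA : MA p s (pd s z) := hI.iso z hz
  obtain ⟨t, b0, hwt, hmu, hlast, mem1, mem2, hmx, c1, c2, c3, c4, c5, c6, c7⟩ :=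
    stepG hU hH hI (by omega) hz hz hwB hwl hq.1 (Or.inl ⟨hq, hne⟩) hg
  have hwMA : MA p t w := ma_new hws hwB mem1 mem2
  have hut : Blu p t (pd s z) := blu_new hws huMA hwB mem2
  refine ⟨t, b0, ⟨hwt, red_flip hws hI.red huMA hwB mem1, ?_, hut,
    blu_flip hws hI.only hwB mem2, ?_, ?_⟩, hmu, hlast, mem1, hmx⟩
  · intro v hv
    by_cases h1 : v = z
    · rw [h1, c1]
      exact ma_flip hws hwB mem1 mem2 hq hne
    by_cases h2 : v = p z
    · rw [h2, c2]; exact hwMA
    · exact c6 v hv h1 h2
  · rw [hlast]
    intro h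
    exact dj hws huMA.1 (List.mem_of_getLast? h)
  · rw [← c5, sc_pd]
    exact ⟨hwMA.2, by rw [hws.inv]; exact hwMA.1⟩

lemma mu_mem {s : St Ω} (hws : WF p s) {v : Ω} (hv : v ∈ s.1 ∨ v ∈ s.2) :
    mu p s v ∈ s.1 ∨ mu p s v ∈ s.2 := by
  rw [muA hws, muB hws]
  rcases hv with h | h
  · exact cl1 hws (scA hws h)
  · exact cl2 hws (scB hws h)

/-- **the walk**. -/
theorem main_walk (hU : UR_stmt p) (hH : H_stmt p) (hK : K_stmt p) : ∀ (n : ℕ) {s : St Ω} {y : Ω}
    {R : Finset Ω} {x e f : Ω}, RI p s y R → 44 ≤ R.card → x ∈ R → s.2.getLast? = some f →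
    Dl p (mu p s) (· ∈ s.1) f n x e → n ≠ 0 → (Even n → mu p s y ∉ R) → Drop p (5 * n + 12) s := by
  intro n
  induction n using Nat.strong_induction_on with
  | _ n ih =>
      intro s y R x e f hI hc hx hf hD hn hev
      have hws := hI.wf
      have hxr := (hI.red x).mp hx
      have hfB : f ∈ s.2 := List.mem_of_getLast? hf
      rcases Nat.even_or_odd n with hpar | hpar
      · -- even distance
        obtain ⟨h1, h2, h3⟩ := dl_evenEnd hD hpar hxr.1
        obtain ⟨t', k1, k2, k3⟩ := h3 hn
        have hsce : sc s e ∈ s.1 := scA hws h2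
        have hz : sc s e ∈ R := (hI.red _).mpr ⟨hsce, (muA hws).mp h1⟩
        have hpd : pd s (sc s e) = e := pd_sc s e
        have hmy : mu p s y ∈ s.1 := (muA hws).mpr hI.nx.2
        have hmyMA : MA p s (mu p s y) := by
          refine ⟨hmy, ?_⟩
          rcases cl1 hws hmy with h4 | h4
          · exact absurd ((hI.red _).mpr ⟨hmy, h4⟩) (hev hpar)
          · exact h4
        have hne : mu p s y ≠ pd s (sc s e) := by
          rw [hpd]
          intro h4
          have h5 := mu_mu' hws y
          rw [h4] at h5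
          rw [h5] at h1
          exact dj hws h1 hI.blu.1
        have hpe : p e = mu p s t' := by rw [k2, hws.inv]
        have hg : ¬ Gnd p s y (p (pd s (sc s e))) := by
          rw [hpd]
          intro h4
          have h5 : sc s (p e) = p (sc s t') := by rw [hpe, sc_mu]
          rcases Pool.Agent.helper32.RW.Gnd.next h4 with h6 | h6 | h6
          · have : p y = e := by rw [h6, hws.inv]
            rw [← this] at h2
            exact dj hws h2 hI.blu.2
          · rw [h5] at h6
            exact k3 ((muA hws).mpr h6.1)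
          · rw [h5] at h6
            have h7 := h6.2
            rw [hws.inv] at h7
            exact dj hws (scA hws k1) h7
        obtain ⟨t, b0, hIt, hmu, hlast, mem1, hmx⟩ := RI_step hU hH hI hc hz hI.blu hI.nl hmyMA
          hne hg
        rw [hpd] at hIt mem1
        have hD' : Dl p (mu p t) (· ∈ t.1) f (n - 1) x (p e) := by
          rw [hmu]
          exact dl_evenStep hws.inv (A' := (· ∈ t.1)) (y := y) mem1 (fun h => dj hws h hI.blu.1)
            (fun h => dj hws h hI.blu.2) (by
              rintro rfl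
              exact dj hws h2 hI.blu.1) hD hpar hxr.1 hn
        have hodd : Odd (n - 1) := by
          rcases hpar with ⟨k, hk⟩
          exact ⟨k - 1, by omega⟩
        have := ih (n - 1) (by omega) hIt hc hx (by rw [hlast, hf]) hD'
          (by rcases hodd with ⟨k, hk⟩; omega)
          (fun h => absurd h (Nat.not_even_iff_odd.mpr hodd))
        exact Drop.mono (drop_trans b0 hmx this) (by omega)
      · -- odd distance
        obtain ⟨h1, h2, h3, h4, h5, h6⟩ := dl_oddEnd (mu_mu' hws) hD hpar hxr.1
        have heB : e ∈ s.2 := by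
          have := mu_mem hws (v := mu p s e) (Or.inl h1)
          rw [mu_mu' hws] at this
          rcases this with h | h
          · exact absurd h h2
          · exact h
        have hpeB : p e ∈ s.2 := by
          rcases cl2 hws heB with h | h
          · exact absurd h h3
          · exact h
        have hwB : Blu p s e := ⟨heB, hpeB⟩
        by_cases hn1 : n = 1
        · subst hn1
          have h7 := h5 rfl
          have h8 : mu p s x = e := by rw [← h7, mu_mu' hws]
          have := last_step hU hH hK hI hc hx hf (by rw [h8]; exact hwB) (by rw [h8]; exact h4)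
          exact Drop.mono this (by omega)
        obtain ⟨t', k1, k2, k3⟩ := h6 hn1
        have hmt' : mu p s t' ∈ s.2 := by
          rcases mu_mem hws (v := t') (Or.inl k1) with h | h
          · exact absurd h k3
          · exact h
        have hqMA : MA p s (mu p s e) := ⟨h1, by rw [k2, hws.inv]; exact hmt'⟩
        -- choice of the red letter
        obtain ⟨z, hz, hg⟩ : ∃ z ∈ R, ¬ Gnd p s e (p (pd s z)) := by
          by_contra hcon
          push Not at hcon
          have g1 := hcon x hx
          have g2 := hcon (p x) (RI.p_mem hI hx)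
          have g3 := p_inj hws (Gnd.uniq hws g1 g2)
          exact hws.ne x (pd_inj g3).symm
        have hzr := (hI.red z).mp hz
        have hmuz : mu p s (pd s z) = pd s (p z) := by rw [mu_eq, sc_pd]
        have hmuzA : mu p s (pd s z) ∈ s.1 := by
          rw [hmuz]; exact pdA hws hzr.2
        have hne : mu p s e ≠ pd s z := by
          intro h
          have h7 := mu_mu' hws e
          rw [h] at h7
          rw [h7] at hmuzA
          exact h2 hmuzA
        obtain ⟨t, b0, hIt, hmu, hlast, mem1, hmx⟩ := RI_step hU hH hI hc hz hwB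
          (by rw [hf]; intro h; exact h4 (Option.some.inj h).symm) hqMA hne hg
        have hD' : Dl p (mu p t) (· ∈ t.1) f (n - 1) x (mu p s e) := by
          rw [hmu]
          exact dl_oddStep (mu_mu' hws) (A' := (· ∈ t.1)) mem1 hmuzA h3 hD hpar
        have hn1' : n - 1 ≠ 0 := by omega
        have := ih (n - 1) (by omega) hIt hc hx (by rw [hlast, hf]) hD' hn1' (by
          intro _
          rw [hmu, hmuz]
          intro h
          have h7 := (hI.red _).mp h
          have h8 := hI.iso _ (RI.p_mem hI hz)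
          exact dj hws h7.2 h8.2)
        exact Drop.mono (drop_trans b0 hmx this) (by omega)

end Pool.Agent.helper32.RW

namespace NAW

open NTH NA Pool.Agent.helper32.RW

/-- **RWK: the red walk.** -/
theorem RWK (hU : UNR_stmt) (hK : KRF_stmt) (hX : DLX_stmt) : RWK_stmt := by
  intro Ω _ p s y R hI hc
  have hws := hI.wf
  have hUR : UR_stmt p := by
    rintro s S hw ⟨c, h1, h2⟩ h3 h4 h5 h6
    obtain ⟨t, k1, k2, k3, k4, k5, k6⟩ := hU Ω p s c S hw h1 h2
      (fun v hv => ⟨(h3 v hv).1, (h3 v hv).2, (h5 v hv).1, (h5 v hv).2⟩) h4 h6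
    exact ⟨t, k1, k2, k3, k4, k5, k6⟩
  have hH : H_stmt p := by
    intro s z u y q hw hz hu hpd hy hmu hq hl g1 g2 hR
    subst hpd
    subst hmu
    obtain ⟨t, k1, k2, k3, k4, k5, k6, k7, k8, k9, -⟩ :=
      NA.stepH (NAW.att p) hw hz hu hy hq hl g1 g2 hR
    exact ⟨t, k1, k2, k3, k4, k5, k6, k7, k8, k9⟩
  have hKs : K_stmt p := by
    intro s x z c hw hx hz h1 h2 h3 h4 h5 h6
    refine hK Ω p s c (p x) z hw h4 h6 ⟨hx.2, by rw [hw.inv]; exact hx.1⟩ hz ?_ ?_
    · rw [← h5, Pool.Agent.helper32.RW.sc_pd]
    · rw [hw.inv, ← h3, Pool.Agent.helper32.RW.sc_pd]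
  -- the last token
  have hBne : s.2 ≠ [] := List.ne_nil_of_mem hI.blu.1
  obtain ⟨f, hf⟩ : ∃ f, s.2.getLast? = some f := ⟨_, List.getLast?_eq_some_getLast hBne⟩
  by_cases hcase : mu p s y ∈ R
  · -- distance one
    have hm := mu_mu' hws y
    have hx := (hI.red _).mp hcase
    have hD : Dl p (mu p s) (· ∈ s.1) f 1 (mu p s y) (mu p s (mu p s y)) := by
      refine Dl.one _ ?_ ?_ ?_
      · rw [hm]
        rintro rfl
        exact hI.nl hf
      · rw [hm]
        exact fun h => dj hws h hI.blu.1
      · rw [hm]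
        exact fun h => dj hws h hI.blu.2
    have := main_walk hUR hH hKs 1 hI hc hcase hf hD (by omega)
      (fun h => absurd h (by decide))
    refine Drop.mono this ?_
    have : 2 ≤ (s.1 ++ s.2).length := by
      have h1 : 0 < s.1.length := List.length_pos_of_mem hx.1
      have h2 : 0 < s.2.length := List.length_pos_of_mem hI.blu.1
      rw [List.length_append]
      omega
    omega
  · -- two red tokens
    obtain ⟨x, hx⟩ : R.Nonempty := Finset.card_pos.mp (by omega)
    have hxr := (hI.red x).mp hx
    have hpx : p x ∈ R := RI.p_mem hI hx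
    have hmm := mu_mu' hws
    obtain ⟨n, hn, e, hD⟩ := hX Ω p (mu p s) (· ∈ s.1) f (s.1 ++ s.2).toFinset hws.inv hmm (by
      intro v hv
      rw [List.mem_toFinset] at hv ⊢
      rw [List.mem_toFinset]
      exact ⟨hws.cl v hv, by
        rw [List.mem_append] at hv ⊢
        exact mu_mem hws hv⟩) x (by simp [hxr.1]) (p x) (by simp [hxr.2]) (Ne.symm (hws.ne x))
      hxr.1 hxr.2 (Or.inl hxr.2) (Or.inl (by rw [hws.inv]; exact hxr.1))
    obtain ⟨x', hx', hD'⟩ : ∃ x' ∈ R, Dl p (mu p s) (· ∈ s.1) f n x' e := by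
      rcases hD with h | h
      · exact ⟨x, hx, h⟩
      · exact ⟨p x, hpx, h⟩
    have hn0 : n ≠ 0 := by
      rintro rfl
      have h1 : mu p s x' ∈ s.1 := by
        cases hD' with
        | zero _ _ h1 => exact h1
      have h2 := (hI.red x').mp hx'
      have h3 : sc s x' ∈ s.1 := scA hws h2.1
      have h4 := hI.iso _ ((hI.red _).mpr ⟨h3, (muA hws).mp h1⟩)
      rw [Pool.Agent.helper32.RW.pd_sc] at h4
      exact dj hws h2.2 h4.2
    have := main_walk hUR hH hKs n hI hc hx' hf hD' hn0 (fun _ => hcase)
    refine Drop.mono this ?_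
    have h5 : (s.1 ++ s.2).toFinset.card ≤ (s.1 ++ s.2).length := List.toFinset_card_le _
    omega

end NAW
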