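import Pool.Agent.helper32.RW.Basic

/-! One step of the red walk (MP_c8d30a, theorem (A), section 8). -/

set_option autoImplicit false

namespace Pool.Agent.helper32.RW

set_option linter.unusedSectionVars false
set_option linter.unusedSimpArgs false
set_option linter.unusedVariables false

open Equiv Equiv.Perm List NTH NA Pool.Agent.helper32.ATT

variable {Ω : Type} [DecidableEq Ω] {p : Ω → Ω}

/-- the step H (section 7). -/
def H_stmt (p : Ω → Ω) : Prop := ∀ (s : St Ω) (z u y q : Ω), WF p s → Red p s z → MA p s u →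
  pd s z = u → Blu p s y → mu p s y = q → q ∈ s.1 → s.2.getLast? ≠ some y → ¬ Gnd p s q u →
  ¬ Gnd p s y (p u) → ¬ NA.RR (cA p s) (cB p s) →
  ∃ t, Pa p 1 s t ∧ t.1.Perm (y :: s.1.erase u) ∧ t.2.Perm (u :: s.2.erase y) ∧
    pd t z = q ∧ pd t (p z) = y ∧ pd t (p u) = pd s y ∧ pd t u = pd s (p y) ∧ pd t (p y) = u ∧
    ∀ v, Red p s v ∨ Blu p s v → v ≠ z → v ≠ p z → v ≠ y → v ≠ p y → pd t v = pd s v

/-- making the core not run-reversed (section 5), red version. -/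
def UR_stmt (p : Ω → Ω) : Prop := ∀ (s : St Ω) (S : Finset Ω), WF p s →
  (∃ c, MA p s c ∧ Good p s c) → (∀ v ∈ S, Red p s v ∧ p v ∈ S) → 38 ≤ S.card →
  (∀ v ∈ S, MA p s (pd s v) ∧ MA p s (sc s v)) → NA.RR (cA p s) (cB p s) →
  ∃ t, Pa p 4 s t ∧ t.2 = s.2 ∧ t.1.Perm s.1 ∧ ¬ NA.RR (cA p t) (cB p t) ∧
    (∀ v, Red p s v → v ∉ S → pd t v = pd s v) ∧ (∀ v ∈ S, MA p t (pd t v))

/-- the certificate K (section 1). -/
def K_stmt (p : Ω → Ω) : Prop := ∀ (s : St Ω) (x z c : Ω), WF p s → Red p s x → Red p s z →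
  z ≠ x → z ≠ p x → pd s z = x → MA p s c → pd s (p x) = c → Good p s c → Drop p 2 s

lemma red_iff {s t : St Ω} (h1 : t.1.Perm s.1) (v : Ω) : Red p t v ↔ Red p s v := by
  unfold Red
  rw [h1.mem_iff, h1.mem_iff]

lemma ma_iff {s t : St Ω} (h1 : t.1.Perm s.1) (h2 : t.2.Perm s.2) (v : Ω) :
    MA p t v ↔ MA p s v := by
  unfold MA
  rw [h1.mem_iff, h2.mem_iff]

lemma mx_perm {s t : St Ω} (h1 : t.1.Perm s.1) (h2 : t.2.Perm s.2) : mx p t = mx p s := by
  unfold mx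
  have e : (fun v => decide (p v ∈ t.2)) = (fun v => decide (p v ∈ s.2)) := by
    funext v
    simp [h2.mem_iff]
  rw [e]
  exact h1.countP_eq _

lemma drop_trans {a b : ℕ} {s t : St Ω} (h : Pa p a s t) (hm : mx p t = mx p s)
    (hd : Drop p b t) : Drop p (a + b) s := by
  obtain ⟨v, h1, h2⟩ := hd
  exact ⟨v, h.trans h1, by omega⟩

lemma pd_congrB {s t : St Ω} (hws : WF p s) (hwt : WF p t) (h2 : t.2 = s.2) {v : Ω}
    (hv : v ∈ s.2) : pd t v = pd s v := by
  have hv' : v ∈ t.2 := by rw [h2]; exact hv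
  have m := pdB hwt hv'
  have e1 : sc s (pd t v) = v := by
    have := sc_pd t v
    rw [sc_B hwt m] at this
    rw [sc_B hws (by rw [← h2]; exact m), ← h2]
    exact this
  rw [← e1, pd_sc, e1]

/-- make the core not run-reversed, protecting two red letters. -/
lemma use_UR (hU : UR_stmt p) {s : St Ω} (hws : WF p s) {R : Finset Ω}
    (hR : ∀ v, v ∈ R ↔ Red p s v) (hc : 42 ≤ R.card) (x z : Ω)
    (hb : ∃ c, MA p s c ∧ Good p s c)
    (hiso : ∀ v ∈ R, v ≠ x → v ≠ p x → v ≠ z → v ≠ p z → MA p s (pd s v) ∧ MA p s (sc s v)) :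
    ∃ t, Pa p 4 s t ∧ t.2 = s.2 ∧ t.1.Perm s.1 ∧ ¬ NA.RR (cA p t) (cB p t) ∧
      (∀ v, Red p s v → v = x ∨ v = p x ∨ v = z ∨ v = p z → pd t v = pd s v) ∧
      (∀ v ∈ R, v ≠ x → v ≠ p x → v ≠ z → v ≠ p z → MA p t (pd t v)) := by
  by_cases hRR : NA.RR (cA p s) (cB p s)
  · set S : Finset Ω := (((R.erase x).erase (p x)).erase z).erase (p z) with hS
    have hmem : ∀ v, v ∈ S ↔ v ≠ p z ∧ v ≠ z ∧ v ≠ p x ∧ v ≠ x ∧ v ∈ R := by
      intro v
      simp only [hS, Finset.mem_erase]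
    have hcard : 38 ≤ S.card := by
      have h1 := Finset.pred_card_le_card_erase (s := R) (a := x)
      have h2 := Finset.pred_card_le_card_erase (s := R.erase x) (a := p x)
      have h3 := Finset.pred_card_le_card_erase (s := (R.erase x).erase (p x)) (a := z)
      have h4 := Finset.pred_card_le_card_erase (s := ((R.erase x).erase (p x)).erase z)
        (a := p z)
      rw [hS]
      omega
    obtain ⟨t, k1, k2, k3, k4, k5, k6⟩ := hU s S hws hb (by
      intro v hv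
      rw [hmem] at hv
      obtain ⟨a1, a2, a3, a4, a5⟩ := hv
      have hred := (hR v).mp a5
      refine ⟨hred, ?_⟩
      rw [hmem]
      refine ⟨?_, ?_, ?_, ?_, ?_⟩
      · intro h; exact a2 (p_inj hws h)
      · intro h; exact a1 (by rw [← h, hws.inv])
      · intro h; exact a4 (p_inj hws h)
      · intro h; exact a3 (by rw [← h, hws.inv])
      · rw [hR]
        exact ⟨hred.2, by rw [hws.inv]; exact hred.1⟩) hcard (by
      intro v hv
      rw [hmem] at hv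
      obtain ⟨a1, a2, a3, a4, a5⟩ := hv
      exact hiso v a5 a4 a3 a2 a1) hRR
    refine ⟨t, k1, k2, k3, k4, ?_, ?_⟩
    · intro v hv h
      apply k5 v hv
      rw [hmem]
      rintro ⟨a1, a2, a3, a4, -⟩
      rcases h with h | h | h | h
      · exact a4 h
      · exact a3 h
      · exact a2 h
      · exact a1 h
    · intro v hv b1 b2 b3 b4
      exact k6 v ((hmem v).mpr ⟨b4, b3, b2, b1, hv⟩)
  · refine ⟨s, .refl _ _, rfl, .refl _, hRR, fun _ _ _ => rfl, ?_⟩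
    intro v hv b1 b2 b3 b4
    exact (hiso v hv b1 b2 b3 b4).1

lemma RI.base {s : St Ω} {y : Ω} {R : Finset Ω} (h : RI p s y R) :
    ∃ c, MA p s c ∧ Good p s c := by
  have h1 := h.nx
  refine ⟨p (sc s y), ⟨h1.2, by rw [h.wf.inv]; exact h1.1⟩, ?_⟩
  exact good_of h.wf h.blu h.nl (by rw [h.wf.inv])

lemma RI.p_mem {s : St Ω} {y : Ω} {R : Finset Ω} (h : RI p s y R) {v : Ω} (hv : v ∈ R) :
    p v ∈ R := by
  have h1 := (h.red v).mp hv
  exact (h.red _).mpr ⟨h1.2, by rw [h.wf.inv]; exact h1.1⟩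

/-- the successor of an isolated red token is mixed. -/
lemma RI.sc_ma {s : St Ω} {y : Ω} {R : Finset Ω} (h : RI p s y R) {v : Ω} (hv : v ∈ R) :
    MA p s (sc s v) := by
  have h1 := (h.red v).mp hv
  have h2 := scA h.wf h1.1
  rcases cl1 h.wf h2 with h3 | h3
  · exfalso
    have h4 := h.iso _ ((h.red _).mpr ⟨h2, h3⟩)
    rw [pd_sc] at h4
    exact dj h.wf h1.2 h4.2
  · exact ⟨h2, h3⟩

/-- counting after a flip. -/
lemma mx_flip {s t : St Ω} (hws : WF p s) {u w : Ω} (hu : MA p s u) (hwB : Blu p s w)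
    (h1 : t.1.Perm (w :: s.1.erase u)) (h2 : t.2.Perm (u :: s.2.erase w)) :
    mx p t = mx p s := by
  have hn1 : s.1.Nodup := (List.nodup_append.mp hws.nd).1
  have hn2 : s.2.Nodup := (List.nodup_append.mp hws.nd).2.1
  unfold mx
  rw [h1.countP_eq, (List.perm_cons_erase hu.1).countP_eq (p := fun v => decide (p v ∈ s.2))]
  rw [List.countP_cons, List.countP_cons]
  have e1 : decide (p w ∈ t.2) = true := by
    rw [decide_eq_true_eq, h2.mem_iff]
    right
    exact (List.mem_erase_of_ne (hws.ne w)).mpr hwB.2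
  have e2 : decide (p u ∈ s.2) = true := by
    rw [decide_eq_true_eq]; exact hu.2
  rw [e1, e2]
  congr 1
  apply List.countP_congr
  intro v hv
  have hvA : v ∈ s.1 := List.mem_of_mem_erase hv
  simp only [decide_eq_true_eq]
  rw [h2.mem_iff, List.mem_cons]
  constructor
  · rintro (h | h)
    · exfalso
      have : v = p u := by rw [← h, hws.inv]
      rw [this] at hvA
      exact dj hws hvA hu.2
    · exact List.mem_of_mem_erase h
  · intro h
    right
    refine (List.mem_erase_of_ne ?_).mpr h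
    intro h'
    have : v = p w := by rw [← h', hws.inv]
    rw [this] at hvA
    exact dj hws hvA hwB.2

/-- **one step** with all the information. -/
theorem stepG (hU : UR_stmt p) (hH : H_stmt p) {s : St Ω} {y : Ω} {R : Finset Ω}
    (hI : RI p s y R) (hc : 42 ≤ R.card) {z w x : Ω} (hz : z ∈ R) (hx : x ∈ R)
    (hwB : Blu p s w) (hwl : s.2.getLast? ≠ some w) (hqA : mu p s w ∈ s.1)
    (hq : (MA p s (mu p s w) ∧ mu p s w ≠ pd s z) ∨ (mu p s w = x ∧ z ≠ x))
    (hg : ¬ Gnd p s w (p (pd s z))) :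
    ∃ t, Pa p 5 s t ∧ WF p t ∧ mu p t = mu p s ∧ t.2.getLast? = s.2.getLast? ∧
      (∀ v, v ∈ t.1 ↔ (v ∈ s.1 ∧ v ≠ pd s z) ∨ v = w) ∧
      (∀ v, v ∈ t.2 ↔ (v ∈ s.2 ∧ v ≠ w) ∨ v = pd s z) ∧ mx p t = mx p s ∧
      pd t z = mu p s w ∧ pd t (p z) = w ∧ pd t (p (pd s z)) = pd s w ∧
      pd t (pd s z) = pd s (p w) ∧ pd t (p w) = pd s z ∧
      (∀ v ∈ R, v ≠ z → v ≠ p z → MA p t (pd t v)) ∧
      (∀ v, v = x ∨ v = p x → v ≠ z → v ≠ p z → pd t v = pd s v) := by
  have hws := hI.wf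
  obtain ⟨s', a1, a2, a3, a4, a5, a6⟩ := use_UR hU hws hI.red hc x z (RI.base hI)
    (fun v hv _ _ _ _ => ⟨hI.iso v hv, RI.sc_ma hI hv⟩)
  have hws' : WF p s' := a1.wf hws
  have a2' : s'.2.Perm s.2 := by rw [a2]
  have hmu : mu p s' = mu p s := a1.mu hws.inv hws.nd
  have hxr := (hI.red x).mp hx
  have hzr := (hI.red z).mp hz
  have huMA : MA p s (pd s z) := hI.iso z hz
  have hz' : pd s' z = pd s z := a5 z hzr (by tauto)
  have hx' : pd s' x = pd s x := a5 x hxr (by tauto)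
  have hpx' : pd s' (p x) = pd s (p x) :=
    a5 (p x) ⟨hxr.2, by rw [hws.inv]; exact hxr.1⟩ (by tauto)
  have hiso' : ∀ v ∈ R, MA p s' (pd s' v) := by
    intro v hv
    by_cases h : v = x ∨ v = p x ∨ v = z ∨ v = p z
    · rw [a5 v ((hI.red v).mp hv) h, ma_iff a3 a2']
      exact hI.iso v hv
    · push Not at h
      exact a6 v hv h.1 h.2.1 h.2.2.1 h.2.2.2
  have n1 : ¬ Gnd p s' (mu p s w) (pd s z) := by
    intro h
    rcases hq with ⟨h1, h2⟩ | ⟨h1, h2⟩
    · exact h2 (Gnd.ofMA hws' ((ma_iff a3 a2' _).mpr h1) h).symm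
    · rw [h1] at h
      have h3 := Gnd.ofRed hws' ((red_iff a3 _).mpr hxr) h
      have h4 := Gnd.ofMA hws' (hiso' x hx) h3
      rw [hx'] at h4
      exact h2 (pd_inj h4)
  have n2 : ¬ Gnd p s' w (p (pd s z)) := by
    intro h
    exact hg (Gnd.congrB hws hws' a2 (fun v => a3.mem_iff) h (by rw [a2]; exact hwB.1))
  have hwB' : Blu p s' w := ⟨by rw [a2]; exact hwB.1, by rw [a2]; exact hwB.2⟩
  obtain ⟨t, b1, b2, b3, b4, b5, b6, b7, b8, b9⟩ := hH s' z (pd s z) w (mu p s w) hws'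
    ((red_iff a3 _).mpr hzr) ((ma_iff a3 a2' _).mpr huMA) hz' hwB' (by rw [hmu])
    (a3.mem_iff.mpr hqA) (by rw [a2]; exact hwl) n1 n2 a4
  have hwt : WF p t := b1.wf hws'
  have huA : pd s z ∈ s.1 := huMA.1
  have hnw : w ∉ s.1 := fun h => dj hws h hwB.1
  have hnu : pd s z ∉ s.2 := fun h => dj hws huA h
  have hn1 : s'.1.Nodup := (List.nodup_append.mp hws'.nd).1
  have hn2 : s'.2.Nodup := (List.nodup_append.mp hws'.nd).2.1
  have mem1 : ∀ v, v ∈ t.1 ↔ (v ∈ s.1 ∧ v ≠ pd s z) ∨ v = w := by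
    intro v
    rw [b2.mem_iff, List.mem_cons, hn1.mem_erase_iff, a3.mem_iff]
    tauto
  have mem2 : ∀ v, v ∈ t.2 ↔ (v ∈ s.2 ∧ v ≠ w) ∨ v = pd s z := by
    intro v
    rw [b3.mem_iff, List.mem_cons, hn2.mem_erase_iff, a2]
    tauto
  refine ⟨t, by simpa using a1.trans b1, hwt, ?_, ?_, mem1, mem2, ?_, b4, b5, ?_, ?_, b8, ?_, ?_⟩
  · rw [b1.mu hws'.inv hws'.nd, hmu]
  · rw [b1.last, a2]
  · rw [mx_flip hws' ((ma_iff a3 a2' _).mpr huMA) hwB' b2 b3, mx_perm a3 a2']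
  · rw [b6, pd_congrB hws hws' a2 hwB.1]
  · rw [b7, pd_congrB hws hws' a2 hwB.2]
  · intro v hv h1 h2
    have hvr := (hI.red v).mp hv
    have hvr' : Red p s' v := (red_iff a3 _).mpr hvr
    rw [b9 v (Or.inl hvr') h1 h2 (fun h => hnw (h ▸ hvr.1))
      (fun h => dj hws (h ▸ hvr.1) hwB.2)]
    have hm := hiso' v hv
    rw [ma_iff a3 a2'] at hm
    refine ⟨(mem1 _).mpr (Or.inl ⟨hm.1, ?_⟩), (mem2 _).mpr (Or.inl ⟨hm.2, ?_⟩)⟩
    · intro h
      rw [← hz'] at h
      exact h1 (pd_inj h)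
    · intro h
      have : pd s' v = p w := by rw [← h, hws.inv]
      rw [this] at hm
      exact dj hws hm.1 hwB.2
  · intro v hv h1 h2
    have hvr : Red p s v := by
      rcases hv with rfl | rfl
      · exact hxr
      · exact ⟨hxr.2, by rw [hws.inv]; exact hxr.1⟩
    rw [b9 v (Or.inl ((red_iff a3 _).mpr hvr)) h1 h2 (fun h => hnw (h ▸ hvr.1))
      (fun h => dj hws (h ▸ hvr.1) hwB.2)]
    rcases hv with rfl | rfl
    · exact hx'
    · exact hpx'

end Pool.Agent.helper32.RW
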